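import Pool.Agent.J6H49.SY.Z2

/-!
# S2-SYM: the wirings of the gates of symmetric circuits are fixed by subspaces of small index
-/

set_option autoImplicit false
set_option maxHeartbeats 400000

namespace Pool.Agent.J6H82.S2


open Pool.Agent.J6H49.SY.Z2
open Pool.Agent.Y600.Circ (Circuit view)

theorem eval_eq {B D L : Type} (C : Circuit B D L) (x : B → Bool) (g : C.Gate) :
    C.eval x g = C.fn g ((C.read g).map x) ((C.wires g).map fun e => (e.1, C.eval x e.2)) := by
  rw [Circuit.eval]
  congr 1
  exact Multiset.attach_map_val' (C.wires g) fun e => (e.1, C.eval x e.2)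

theorem view_comp {X B D L : Type} (enc : X → B → Bool) (C : Circuit B D L) (g : C.Gate)
    (f h : X → X) :
    view enc C g (f ∘ h) = ((view enc C g f).1.map fun F x => F (h x),
      (view enc C g f).2.map fun e => (e.1, fun x => e.2 (h x))) := by
  unfold view
  simp only [Option.map_map, Multiset.map_map, Function.comp_def]

variable {ι : Type} {m : ℕ} {D L : Type}

theorem eval_aut (C : Circuit (Clause ι m) D L) {y : ι → Bool} {π : Equiv.Perm C.Gate}
    (h : IsAut C y π) (x : Clause ι m → Bool) (g : C.Gate) :
    C.eval x (π g) = C.eval (act y x) g := by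
  induction hr : C.rank g using Nat.strong_induction_on generalizing g with
  | _ r ih =>
    rw [eval_eq, eval_eq, h.read, h.wires, h.fn, Option.map_map, Multiset.map_map]
    congr 1
    refine Multiset.map_congr rfl fun e he => ?_
    exact congrArg (Prod.mk e.1) (ih _ (hr ▸ C.rank_lt g e he) e.2 rfl)

theorem view_aut (C : Circuit (Clause ι m) D L) {y : ι → Bool} {π : Equiv.Perm C.Gate}
    (h : IsAut C y π) (g : C.Gate) :
    view id C g (act y) = view id C (π g) id := by
  unfold view
  rw [h.read, h.wires, Option.map_map, Multiset.map_map]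
  refine Prod.ext rfl ?_
  refine Multiset.map_congr rfl fun e _ => ?_
  exact congrArg (Prod.mk e.1) (funext fun x => (eval_aut C h x e.2).symm)

/-- the vector as a set of exchanges -/
def tb (z : ι → ZMod 2) : ι → Bool := fun i => decide (z i ≠ 0)

theorem tb_toZ (y : ι → Bool) : tb (fun i => Pool.Agent.J6H49.SY.toZ (y i)) = y := by
  funext i
  have h : ∀ b : Bool, decide (Pool.Agent.J6H49.SY.toZ b ≠ 0) = b := by
    intro b
    cases b <;> decide
  exact h (y i)

theorem mv_add (z z' : ι → ZMod 2) (v : Vr ι m) : mv (tb (z + z')) v = mv (tb z') (mv (tb z) v) := by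
  rcases v with ⟨i, b⟩ | j
  · have h : ∀ (a a' : ZMod 2) (b : Bool),
        (b ^^ decide (a + a' ≠ 0)) = ((b ^^ decide (a ≠ 0)) ^^ decide (a' ≠ 0)) := by decide
    exact congrArg (fun b : Bool => (Sum.inl (i, b) : Vr ι m)) (h (z i) (z' i) b)
  · rfl

theorem act_add (z z' : ι → ZMod 2) :
    (act (tb (z + z')) : (Clause ι m → Bool) → _) = act (tb z) ∘ act (tb z') := by
  funext x c
  refine congrArg x (funext fun k => Prod.ext ?_ rfl)
  exact mv_add z z' (c k).1

theorem act_zero : (act (tb (0 : ι → ZMod 2)) : (Clause ι m → Bool) → _) = id := by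
  funext x c
  refine congrArg x (funext fun k => Prod.ext ?_ rfl)
  change mv (tb (0 : ι → ZMod 2)) (c k).1 = (c k).1
  rcases (c k).1 with ⟨i, b⟩ | j
  · have h : ∀ b : Bool, (b ^^ decide ((0 : ZMod 2) ≠ 0)) = b := by decide
    exact congrArg (fun b : Bool => (Sum.inl (i, b) : Vr ι m)) (h b)
  · rfl

/-- The vectors which fix the wiring of a gate. -/
def stab (C : Circuit (Clause ι m) D L) (g : C.Gate) : Submodule (ZMod 2) (ι → ZMod 2) where
  carrier := {z | view id C g (act (tb z)) = view id C g id}
  zero_mem' := by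
    show view id C g (act (tb 0)) = _
    rw [act_zero]
  add_mem' := by
    intro z z' h h'
    show view id C g (act (tb (z + z'))) = _
    have h : view id C g (act (tb z)) = view id C g id := h
    have h' : view id C g (act (tb z')) = view id C g id := h'
    rw [act_add, view_comp, h, ← view_comp, Function.id_comp, h']
  smul_mem' := by
    intro c z h
    have h : view id C g (act (tb z)) = view id C g id := h
    show view id C g (act (tb (c • z))) = _
    have hc : c = 0 ∨ c = 1 := by
      revert c
      decide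
    rcases hc with rfl | rfl
    · rw [zero_smul, act_zero]
    · rw [one_smul, h]

/-- the orthogonal complement -/
def perp [Fintype ι] (H : Submodule (ZMod 2) (ι → ZMod 2)) : Submodule (ZMod 2) (ι → ZMod 2) where
  carrier := {c | ∀ z ∈ H, ∑ i, c i * z i = 0}
  zero_mem' := by
    intro z _
    simp
  add_mem' := by
    intro c c' h h' z hz
    have h1 := h z hz
    have h2 := h' z hz
    simp only [Pi.add_apply, add_mul, Finset.sum_add_distrib, h1, h2, add_zero]
  smul_mem' := by
    intro a c h z hz
    have h1 := h z hz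
    simp only [Pi.smul_apply, smul_eq_mul, mul_assoc, ← Finset.mul_sum, h1, mul_zero]

theorem mem_of_perp [Fintype ι] [DecidableEq ι] (H : Submodule (ZMod 2) (ι → ZMod 2))
    {z : ι → ZMod 2} (hz : ∀ c ∈ perp H, ∑ i, c i * z i = 0) : z ∈ H := by
  by_contra hcon
  obtain ⟨f, hf, hH⟩ := Submodule.exists_le_ker_of_notMem hcon
  have h1 : ∀ x : ι → ZMod 2, ∑ i, f (Pi.single i 1) * x i = f x := by
    intro x
    conv_rhs => rw [← Finset.univ_sum_single x]
    rw [map_sum]
    refine Finset.sum_congr rfl fun i _ => ?_
    rw [mul_comm, ← smul_eq_mul, ← map_smul, ← Pi.single_smul, smul_eq_mul, mul_one]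
  apply hf
  rw [← h1 z]
  refine hz _ fun x hx => ?_
  rw [h1]
  exact hH hx

theorem card_perp [Fintype ι] [DecidableEq ι] (H : Submodule (ZMod 2) (ι → ZMod 2)) :
    Nat.card (perp H) ≤ Nat.card ((ι → ZMod 2) ⧸ H) := by
  let F : perp H → Module.Dual (ZMod 2) ((ι → ZMod 2) ⧸ H) := fun c =>
    H.liftQ (∑ i, c.1 i • LinearMap.proj i) fun z hz => by
      have h1 := c.2 z hz
      rw [LinearMap.mem_ker]
      simpa using h1
  have hF : Function.Injective F := by
    intro c c' h
    apply Subtype.ext
    funext i
    have h1 := congrArg (fun f : Module.Dual (ZMod 2) ((ι → ZMod 2) ⧸ H) =>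
      f (H.mkQ (Pi.single i 1))) h
    simpa [F, Pi.single_apply] using h1
  have h1 : Nat.card (Module.Dual (ZMod 2) ((ι → ZMod 2) ⧸ H)) = Nat.card ((ι → ZMod 2) ⧸ H) := by
    rw [Module.natCard_eq_pow_finrank (K := ZMod 2), Subspace.dual_finrank_eq,
      ← Module.natCard_eq_pow_finrank]
  have : Finite (Module.Dual (ZMod 2) ((ι → ZMod 2) ⧸ H)) :=
    Module.finite_of_finite (ZMod 2)
  rw [← h1]
  exact Nat.card_le_card_of_injective F hF

/-- **S2-SYM.** -/
theorem main : S_SYM3 := by
  intro ι _ _ m D L C hC
  refine ⟨fun y x => ?_, fun g => ⟨perp (stab C g), ?_, fun y h => ?_⟩⟩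
  · obtain ⟨π, hπ⟩ := hC y
    have h := eval_aut C hπ x C.out
    rw [hπ.out] at h
    exact h.symm
  · let := C.finite
    have hsize : C.size = Nat.card C.Gate := Nat.card_eq_fintype_card.symm
    rw [hsize]
    choose π hπ using hC
    refine (card_perp _).trans (Nat.card_le_card_of_injective
      (fun q : (ι → ZMod 2) ⧸ stab C g => π (tb q.out) g) ?_)
    intro q q' h
    have h : π (tb q.out) g = π (tb q'.out) g := h
    have h1 : view id C g (act (tb q.out)) = view id C g (act (tb q'.out)) := by
      rw [view_aut C (hπ _), view_aut C (hπ _), h]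
    have h2 : q.out - q'.out ∈ stab C g := by
      show view id C g (act (tb (q.out - q'.out))) = view id C g id
      rw [sub_eq_add_neg, act_add, view_comp, h1, ← view_comp, ← act_add, add_neg_cancel, act_zero]
    have h3 := (Submodule.Quotient.eq _).2 h2
    rwa [Submodule.Quotient.mk_out, Submodule.Quotient.mk_out] at h3
  · have h1 : (fun i => Pool.Agent.J6H49.SY.toZ (y i)) ∈ stab C g := mem_of_perp _ fun c hc => h c hc
    have h2 : view id C g (act (tb fun i => Pool.Agent.J6H49.SY.toZ (y i))) = view id C g id := h1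
    rwa [tb_toZ] at h2

end Pool.Agent.J6H82.S2
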